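import Mathlib
import Pool.Agent.Helper80.UC.Fin2

set_option autoImplicit false

open Polynomial

namespace Pool.Agent.Helper80.FB

open Pool.Agent.Helper80.UC

/-- two iterates are proportional -/
def PP (K : Type) {V : Type} [Field K] [AddCommGroup V] [Module K V] (F : V → V) (x : V) : Prop :=
  ∃ m n : ℕ, m < n ∧ ∃ a : K, a ≠ 0 ∧ F^[n] x = a • F^[m] x

/-- at most `C` preperiodic points in the projective space of `V` -/
def Cnt (K : Type) {V : Type} [Field K] [AddCommGroup V] [Module K V] (F : V → V) (C : ℕ) : Prop :=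
  ∀ S : Finset V, (∀ x ∈ S, x ≠ 0) → (∀ x ∈ S, ∀ y ∈ S, ∀ a : K, x = a • y → x = y) →
    (∀ x ∈ S, PP K F x) → S.card ≤ C

section

variable {K V W : Type} [Field K] [AddCommGroup V] [Module K V] [AddCommGroup W] [Module K W]
  {d : ℕ}

lemma it_smul {F : V → V} (hF : ∀ (a : K) (x : V), F (a • x) = a ^ d • F x) (n : ℕ) (a : K)
    (x : V) : F^[n] (a • x) = a ^ (d ^ n) • F^[n] x := by
  induction n with
  | zero => simp
  | succ n ih =>
    rw [Function.iterate_succ_apply', Function.iterate_succ_apply', ih, hF, ← pow_mul, ← pow_succ]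

lemma it_ne {F : V → V} (hF0 : ∀ x, x ≠ 0 → F x ≠ 0) (n : ℕ) {x : V} (hx : x ≠ 0) :
    F^[n] x ≠ 0 := by
  induction n with
  | zero => simpa using hx
  | succ n ih => rw [Function.iterate_succ_apply']; exact hF0 _ ih

lemma PP.smul {F : V → V} (hF : ∀ (a : K) (x : V), F (a • x) = a ^ d • F x) {x : V}
    (h : PP K F x) {s : K} (hs : s ≠ 0) : PP K F (s • x) := by
  obtain ⟨m, n, hmn, a, ha, h⟩ := h
  refine ⟨m, n, hmn, s ^ (d ^ n) * a * (s ^ (d ^ m))⁻¹, mul_ne_zero (mul_ne_zero (pow_ne_zero _ hs)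
    ha) (inv_ne_zero (pow_ne_zero _ hs)), ?_⟩
  rw [it_smul hF, it_smul hF, h, smul_smul, smul_smul, mul_assoc (s ^ d ^ n * a),
    inv_mul_cancel₀ (pow_ne_zero _ hs), mul_one]

lemma PP.map {F : V → V} (hF : ∀ (a : K) (x : V), F (a • x) = a ^ d • F x) {x : V}
    (h : PP K F x) : PP K F (F x) := by
  obtain ⟨m, n, hmn, a, ha, h⟩ := h
  refine ⟨m, n, hmn, a ^ d, pow_ne_zero _ ha, ?_⟩
  rw [← Function.iterate_succ_apply, ← Function.iterate_succ_apply,
    Function.iterate_succ_apply', Function.iterate_succ_apply', h, hF]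

lemma PP.iter {F : V → V} (hF : ∀ (a : K) (x : V), F (a • x) = a ^ d • F x) {x : V}
    (h : PP K F x) (n : ℕ) : PP K F (F^[n] x) := by
  induction n with
  | zero => simpa using h
  | succ n ih => rw [Function.iterate_succ_apply']; exact ih.map hF

/-- iterates of conjugate maps -/
lemma conj_iter {F : V → V} {G : W → W} (hG : ∀ (a : K) (x : W), G (a • x) = a ^ d • G x)
    (e : V →ₗ[K] W) {u : K} (hu : u ≠ 0) (h : ∀ x, e (F x) = u • G (e x)) (n : ℕ) (x : V) :
    ∃ b : K, b ≠ 0 ∧ e (F^[n] x) = b • G^[n] (e x) := by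
  induction n with
  | zero => exact ⟨1, one_ne_zero, by simp⟩
  | succ n ih =>
    obtain ⟨b, hb, hb'⟩ := ih
    refine ⟨u * b ^ d, mul_ne_zero hu (pow_ne_zero _ hb), ?_⟩
    rw [Function.iterate_succ_apply', Function.iterate_succ_apply', h, hb', hG, smul_smul]

lemma PP.push {F : V → V} {G : W → W} (hG : ∀ (a : K) (x : W), G (a • x) = a ^ d • G x)
    (e : V →ₗ[K] W) {u : K} (hu : u ≠ 0) (h : ∀ x, e (F x) = u • G (e x)) {x : V}
    (hx : PP K F x) : PP K G (e x) := by
  obtain ⟨m, n, hmn, a, ha, hx⟩ := hx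
  obtain ⟨b1, hb1, e1⟩ := conj_iter hG e hu h n x
  obtain ⟨b2, hb2, e2⟩ := conj_iter hG e hu h m x
  refine ⟨m, n, hmn, b1⁻¹ * a * b2, mul_ne_zero (mul_ne_zero (inv_ne_zero hb1) ha) hb2, ?_⟩
  have h2 := congrArg e hx
  rw [map_smul, e1, e2] at h2
  have h3 : G^[n] (e x) = b1⁻¹ • (b1 • G^[n] (e x)) := by
    rw [smul_smul, inv_mul_cancel₀ hb1, one_smul]
  rw [h3, h2, smul_smul, smul_smul, mul_assoc]

/-- counting is invariant under linear conjugacy -/
lemma Cnt.pull {F : V → V} {G : W → W} (hG : ∀ (a : K) (x : W), G (a • x) = a ^ d • G x)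
    (e : V →ₗ[K] W) (he : Function.Injective e) {u : K} (hu : u ≠ 0)
    (h : ∀ x, e (F x) = u • G (e x)) {C : ℕ} (hC : Cnt K G C) : Cnt K F C := by
  classical
  intro S hS0 hSp hS
  rw [← Finset.card_image_of_injective S he]
  refine hC _ ?_ ?_ ?_
  · intro z hz
    obtain ⟨x, hx, rfl⟩ := Finset.mem_image.mp hz
    intro h0
    exact hS0 x hx (he (by rw [h0, map_zero]))
  · intro z hz z' hz' a h
    obtain ⟨x, hx, rfl⟩ := Finset.mem_image.mp hz
    obtain ⟨x', hx', rfl⟩ := Finset.mem_image.mp hz'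
    rw [← map_smul] at h
    rw [hSp x hx x' hx' a (he h)]
  · intro z hz
    obtain ⟨x, hx, rfl⟩ := Finset.mem_image.mp hz
    exact (hS x hx).push hG e hu h

/-- bounded number of preperiodic points, all falling into fixed points with multipliers in `Λ` -/
structure Good (K : Type) {V : Type} [Field K] [AddCommGroup V] [Module K V] (F : V → V)
    (C κ : ℕ) (Λ : Set K) : Prop where
  cnt : Cnt K F C
  fix : ∀ x, x ≠ 0 → PP K F x → ∃ s : K, s ≠ 0 ∧ ∃ l ∈ Λ, F (s • F^[κ] x) = l • (s • F^[κ] x)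

lemma Good.pull {F : V → V} {G : W → W} (hG : ∀ (a : K) (x : W), G (a • x) = a ^ d • G x)
    (e : V →ₗ[K] W) (he : Function.Injective e)
    (h : ∀ x, e (F x) = G (e x)) {C κ : ℕ} {Λ : Set K} (hC : Good K G C κ Λ) :
    Good K F C κ Λ where
  cnt := hC.cnt.pull hG e he one_ne_zero (fun x => by rw [one_smul, h])
  fix := by
    intro x hx hp
    have hit : ∀ n x, e (F^[n] x) = G^[n] (e x) := by
      intro n x
      induction n with
      | zero => rfl
      | succ n ih => rw [Function.iterate_succ_apply', Function.iterate_succ_apply', h, ih]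
    obtain ⟨s, hs, l, hl, h1⟩ := hC.fix (e x) (fun h0 => hx (he (by rw [h0, map_zero])))
      (hp.push hG e one_ne_zero (fun x => by rw [one_smul, h]))
    refine ⟨s, hs, l, hl, he ?_⟩
    rw [h, map_smul, map_smul, map_smul, hit, h1]

end

section fibre

variable {K V : Type} [Field K] [AddCommGroup V] [Module K V] {d M : ℕ}

/-- the fibred map -/
def fib (F : V → V) (h : Fin M → V → K) (d : ℕ) (z : V × (Fin M → K)) : V × (Fin M → K) :=
  (F z.1, fun j => z.2 j ^ d + h j z.1)

lemma fib_smul {F : V → V} (hF : ∀ (a : K) (x : V), F (a • x) = a ^ d • F x)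
    {h : Fin M → V → K} (hh : ∀ j (a : K) (x : V), h j (a • x) = a ^ d * h j x) (a : K)
    (z : V × (Fin M → K)) : fib F h d (a • z) = a ^ d • fib F h d z := by
  refine Prod.ext ?_ ?_
  · simp [fib, hF]
  · funext j
    simp only [fib, Prod.smul_fst, Prod.smul_snd, Pi.smul_apply, smul_eq_mul, hh]
    ring

lemma fib_fst (F : V → V) (h : Fin M → V → K) (n : ℕ) (z : V × (Fin M → K)) :
    ((fib F h d)^[n] z).1 = F^[n] z.1 := by
  induction n with
  | zero => rfl
  | succ n ih => rw [Function.iterate_succ_apply', Function.iterate_succ_apply', ← ih]; rfl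

lemma pp_fst {F : V → V} {h : Fin M → V → K} {z : V × (Fin M → K)}
    (hz : PP K (fib F h d) z) : PP K F z.1 := by
  obtain ⟨m, n, hmn, a, ha, hz⟩ := hz
  refine ⟨m, n, hmn, a, ha, ?_⟩
  have := congrArg Prod.fst hz
  rwa [Prod.smul_fst, fib_fst, fib_fst] at this

/-- the fibre over a fixed point -/
lemma fib_iter_fix {F : V → V} (hF : ∀ (a : K) (x : V), F (a • x) = a ^ d • F x)
    {h : Fin M → V → K} (hh : ∀ j (a : K) (x : V), h j (a • x) = a ^ d * h j x) {x : V} {l : K}
    (hl : l ≠ 0) (hx : F x = l • x) (n : ℕ) (y : Fin M → K) :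
    ∃ μ : K, μ ≠ 0 ∧ (fib F h d)^[n] (x, y) =
      μ • ((x, fun j => (fun z => l⁻¹ * z ^ d + l⁻¹ * h j x)^[n] (y j)) : V × (Fin M → K)) := by
  induction n with
  | zero => exact ⟨1, one_ne_zero, by simp⟩
  | succ n ih =>
    obtain ⟨μ, hμ, h1⟩ := ih
    refine ⟨μ ^ d * l, mul_ne_zero (pow_ne_zero _ hμ) hl, ?_⟩
    rw [Function.iterate_succ_apply', h1, fib_smul hF hh, mul_smul]
    congr 1
    refine Prod.ext ?_ ?_
    · simp [fib, hx]
    · funext j
      simp only [fib, Prod.smul_snd, Pi.smul_apply, smul_eq_mul, Function.iterate_succ_apply']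
      field_simp

/-- preperiodic points over a fixed point -/
lemma pre_of_fix {F : V → V} (hF : ∀ (a : K) (x : V), F (a • x) = a ^ d • F x)
    {h : Fin M → V → K} (hh : ∀ j (a : K) (x : V), h j (a • x) = a ^ d * h j x) {x : V} {l : K}
    (hl : l ≠ 0) (hx0 : x ≠ 0) (hx : F x = l • x) {y : Fin M → K}
    (hy : PP K (fib F h d) (x, y)) (j : Fin M) :
    Pre (fun z => l⁻¹ * z ^ d + l⁻¹ * h j x) (y j) := by
  obtain ⟨m, n, hmn, a, ha, hy⟩ := hy
  obtain ⟨μ, hμ, e1⟩ := fib_iter_fix hF hh hl hx n y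
  obtain ⟨ν, hν, e2⟩ := fib_iter_fix hF hh hl hx m y
  rw [e1, e2, smul_smul] at hy
  have h1 := congrArg Prod.fst hy
  have h2 := congrArg Prod.snd hy
  simp only [Prod.smul_fst, Prod.smul_snd] at h1 h2
  have h3 : μ = a * ν := by
    by_contra hne
    have h4 : (μ - a * ν) • x = 0 := by rw [sub_smul, h1, sub_self]
    rcases smul_eq_zero.mp h4 with h5 | h5
    · exact hne (sub_eq_zero.mp h5)
    · exact hx0 h5
  have h4 := congrFun h2 j
  simp only [Pi.smul_apply, smul_eq_mul, ← h3] at h4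
  exact ⟨m, n, hmn, (mul_left_cancel₀ hμ h4).symm⟩

/-- the count in a fibre -/
lemma cnt_over (hd : 0 < d) {F : V → V} (hF : ∀ (a : K) (x : V), F (a • x) = a ^ d • F x)
    (hF0 : ∀ x, x ≠ 0 → F x ≠ 0)
    {h : Fin M → V → K} (hh : ∀ j (a : K) (x : V), h j (a • x) = a ^ d * h j x) {Λ : Set K}
    (hΛ : ∀ l ∈ Λ, l ≠ 0) {B : ℕ}
    (hB : ∀ l ∈ Λ, ∀ c : K, {y : K | Pre (fun z => l⁻¹ * z ^ d + c) y}.encard ≤ B) (k : ℕ) :
    ∀ x : V, x ≠ 0 → (∃ s : K, s ≠ 0 ∧ ∃ l ∈ Λ, F (s • F^[k] x) = l • (s • F^[k] x)) →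
    ∀ T : Finset (Fin M → K), (∀ y ∈ T, PP K (fib F h d) (x, y)) →
      T.card ≤ (d ^ M) ^ k * B ^ M := by
  classical
  induction k with
  | zero =>
    rintro x hx ⟨s, hs, l, hl, hfix⟩ T hT
    rw [Function.iterate_zero, id] at hfix
    rw [pow_zero, one_mul]
    have hinj : Function.Injective (fun y : Fin M → K => s • y) := by
      intro y y' hyy
      have := congrArg (fun z => s⁻¹ • z) hyy
      simpa [smul_smul, inv_mul_cancel₀ hs] using this
    rw [← Finset.card_image_of_injective T hinj]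
    have hfin : ∀ c : K, {y : K | Pre (fun z => l⁻¹ * z ^ d + c) y}.Finite := fun c =>
      Set.finite_of_encard_le_coe (hB l hl c)
    let E : Fin M → Finset K := fun j => (hfin (l⁻¹ * h j (s • x))).toFinset
    have hsub : T.image (fun y : Fin M → K => s • y) ⊆ Fintype.piFinset E := by
      intro z hz
      obtain ⟨y, hy, rfl⟩ := Finset.mem_image.mp hz
      rw [Fintype.mem_piFinset]
      intro j
      rw [Set.Finite.mem_toFinset]
      have h1 : PP K (fib F h d) (s • (x, y)) := (hT y hy).smul (fib_smul hF hh) hs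
      exact pre_of_fix hF hh (hΛ l hl) (smul_ne_zero hs hx) hfix h1 j
    refine (Finset.card_le_card hsub).trans ?_
    rw [Fintype.card_piFinset]
    calc ∏ j, (E j).card ≤ ∏ _j : Fin M, B := by
          refine Finset.prod_le_prod' fun j _ => ?_
          have h1 := hB l hl (l⁻¹ * h j (s • x))
          rw [(hfin _).encard_eq_coe_toFinset_card] at h1
          exact_mod_cast h1
      _ = B ^ M := by simp
  | succ k ih =>
    rintro x hx hk T hT
    rw [Function.iterate_succ_apply] at hk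
    let ψ : (Fin M → K) → (Fin M → K) := fun y j => y j ^ d + h j x
    have h1 := ih (F x) (hF0 x hx) hk (T.image ψ) (by
      intro z hz
      obtain ⟨y, hy, rfl⟩ := Finset.mem_image.mp hz
      exact (hT y hy).map (fib_smul hF hh))
    have h2 : T.card ≤ d ^ M * (T.image ψ).card := by
      refine Finset.card_le_mul_card_image T (d ^ M) fun z _ => ?_
      have hsub : T.filter (fun y => ψ y = z) ⊆
          Fintype.piFinset fun j : Fin M => nthRootsFinset d (z j - h j x) := by
        intro y hy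
        rw [Finset.mem_filter] at hy
        rw [Fintype.mem_piFinset]
        intro j
        rw [mem_nthRootsFinset hd]
        have := congrFun hy.2 j
        simp only [ψ] at this
        linear_combination this
      refine (Finset.card_le_card hsub).trans ?_
      rw [Fintype.card_piFinset]
      calc ∏ j : Fin M, (nthRootsFinset d (z j - h j x)).card ≤ ∏ _j : Fin M, d := by
            refine Finset.prod_le_prod' fun j _ => ?_
            rw [nthRootsFinset_def]
            exact (Multiset.toFinset_card_le _).trans (card_nthRoots _ _)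
        _ = d ^ M := by simp
    calc T.card ≤ d ^ M * (T.image ψ).card := h2
      _ ≤ d ^ M * ((d ^ M) ^ k * B ^ M) := Nat.mul_le_mul_left _ h1
      _ = (d ^ M) ^ (k + 1) * B ^ M := by ring

end fibre

end Pool.Agent.Helper80.FB
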