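import Mathlib
import Pool.Agent.Helper80.FB.Abs

set_option autoImplicit false

open Polynomial

namespace Pool.Agent.Helper80.FB

open Pool.Agent.Helper80.UC

section rep

variable (K : Type) {V : Type} [Field K] [AddCommGroup V] [Module K V]

/-- proportional by a nonzero scalar -/
def propSetoid : Setoid V where
  r x y := ∃ a : K, a ≠ 0 ∧ x = a • y
  iseqv := by
    refine ⟨fun x => ⟨1, one_ne_zero, by rw [one_smul]⟩, ?_, ?_⟩
    · rintro x y ⟨a, ha, rfl⟩
      exact ⟨a⁻¹, inv_ne_zero ha, by rw [smul_smul, inv_mul_cancel₀ ha, one_smul]⟩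
    · rintro x y z ⟨a, ha, rfl⟩ ⟨b, hb, rfl⟩
      exact ⟨a * b, mul_ne_zero ha hb, by rw [smul_smul]⟩

/-- a representative of the class -/
noncomputable def rep (x : V) : V := Quotient.out (Quotient.mk (propSetoid K) x)

lemma rep_spec (x : V) : ∃ a : K, a ≠ 0 ∧ x = a • rep K x := by
  have h := Quotient.mk_out (s := propSetoid K) x
  exact (propSetoid K).symm h

lemma rep_eq {x y : V} (h : ∃ a : K, a ≠ 0 ∧ x = a • y) : rep K x = rep K y := by
  unfold rep
  congr 1
  exact Quotient.sound (s := propSetoid K) h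

lemma rep_rep (x : V) : rep K (rep K x) = rep K x := by
  apply rep_eq
  obtain ⟨a, ha, h⟩ := rep_spec K x
  exact ⟨a⁻¹, inv_ne_zero ha, by rw [h, smul_smul, ← h, inv_mul_cancel₀ ha, one_smul]⟩

end rep

section step

variable {K V : Type} [Field K] [AddCommGroup V] [Module K V] {d M : ℕ}

/-- iterates in the fibre over zero -/
lemma fib_zero (hd : 0 < d) {F : V → V} (hF : ∀ (a : K) (x : V), F (a • x) = a ^ d • F x)
    {h : Fin M → V → K} (hh : ∀ j (a : K) (x : V), h j (a • x) = a ^ d * h j x) (n : ℕ)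
    (y : Fin M → K) : (fib F h d)^[n] (0, y) =
      ((0, fun j => (fun z : K => z ^ d + 0)^[n] (y j)) : V × (Fin M → K)) := by
  have h0 : ∀ j, h j 0 = 0 := by
    intro j
    have := hh j 0 0
    rwa [zero_smul, zero_pow hd.ne', zero_mul] at this
  have hF0 : F 0 = 0 := by
    have := hF 0 0
    rwa [zero_smul, zero_pow hd.ne', zero_smul] at this
  induction n with
  | zero => rfl
  | succ n ih =>
    rw [Function.iterate_succ_apply', ih]
    refine Prod.ext ?_ ?_
    · simp [fib, hF0]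
    · funext j
      simp only [fib, h0, Function.iterate_succ_apply']

lemma cnt_zero (hd : 0 < d) {F : V → V} (hF : ∀ (a : K) (x : V), F (a • x) = a ^ d • F x)
    {h : Fin M → V → K} (hh : ∀ j (a : K) (x : V), h j (a • x) = a ^ d * h j x) {B : ℕ}
    (hB : {y : K | Pre (fun z : K => z ^ d + 0) y}.encard ≤ B)
    (S : Finset (V × (Fin M → K))) (hS0 : ∀ x ∈ S, x ≠ 0)
    (hSp : ∀ x ∈ S, ∀ y ∈ S, ∀ a : K, x = a • y → x = y)
    (hS : ∀ x ∈ S, PP K (fib F h d) x) (hz : ∀ x ∈ S, x.1 = 0) : S.card ≤ B ^ M := by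
  classical
  have hfin : {y : K | Pre (fun z : K => z ^ d + 0) y}.Finite := Set.finite_of_encard_le_coe hB
  have hnorm : ∀ x ∈ S, ∃ (b : K) (y : Fin M → K), b ≠ 0 ∧ x = b • ((0, y) : V × (Fin M → K)) ∧
      ∀ j, y j ∈ hfin.toFinset := by
    intro x hx
    obtain ⟨j, hj⟩ : ∃ j, x.2 j ≠ 0 := by
      by_contra hcon
      push Not at hcon
      exact hS0 x hx (Prod.ext (hz x hx) (funext hcon))
    set y : Fin M → K := (x.2 j)⁻¹ • x.2 with hy
    have hyj : y j = 1 := by
      rw [hy, Pi.smul_apply, smul_eq_mul, inv_mul_cancel₀ hj]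
    have hxy : x = x.2 j • ((0, y) : V × (Fin M → K)) := by
      refine Prod.ext ?_ ?_
      · simp [hz x hx]
      · rw [hy, Prod.smul_snd, smul_smul, mul_inv_cancel₀ hj, one_smul]
    refine ⟨x.2 j, y, hj, hxy, fun i => ?_⟩
    rw [Set.Finite.mem_toFinset]
    have h1 : PP K (fib F h d) ((x.2 j)⁻¹ • x) := (hS x hx).smul (fib_smul hF hh) (inv_ne_zero hj)
    have h2 : (x.2 j)⁻¹ • x = ((0, y) : V × (Fin M → K)) := by
      conv_lhs => rw [hxy]
      rw [smul_smul]
      have : ((x.2 j)⁻¹ * x.2 j) = 1 := inv_mul_cancel₀ hj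
      simp only [Prod.smul_mk]
      rw [smul_smul]
      simp [inv_mul_cancel₀ hj]
    rw [h2] at h1
    obtain ⟨m, n, hmn, a, ha, h3⟩ := h1
    rw [fib_zero hd hF hh, fib_zero hd hF hh] at h3
    have h4 := congrArg Prod.snd h3
    simp only [Prod.smul_snd] at h4
    have h5 := congrFun h4 j
    have hone : ∀ k : ℕ, (fun z : K => z ^ d + 0)^[k] 1 = 1 := by
      intro k
      apply Function.iterate_fixed
      simp
    simp only [Pi.smul_apply, smul_eq_mul, hyj, hone, mul_one] at h5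
    have h6 := congrFun h4 i
    simp only [Pi.smul_apply, smul_eq_mul, ← h5, one_mul] at h6
    exact ⟨m, n, hmn, h6.symm⟩
  choose! b y hb hy hper using hnorm
  have hyinj : Set.InjOn y S := by
    intro x hx x' hx' h
    refine hSp x hx x' hx' (b x * (b x')⁻¹) ?_
    have h2 : (b x')⁻¹ • x' = ((0, y x') : V × (Fin M → K)) := by
      have h3 := congrArg (fun z => (b x')⁻¹ • z) (hy x' hx')
      simp only [smul_smul, inv_mul_cancel₀ (hb x' hx'), one_smul] at h3
      exact h3
    calc x = b x • ((0, y x) : V × (Fin M → K)) := hy x hx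
      _ = b x • ((0, y x') : V × (Fin M → K)) := by rw [h]
      _ = (b x * (b x')⁻¹) • x' := by rw [← h2, smul_smul]
  calc S.card = (S.image y).card := (Finset.card_image_of_injOn hyinj).symm
    _ ≤ (Fintype.piFinset fun _ : Fin M => hfin.toFinset).card := by
        refine Finset.card_le_card fun z hz => ?_
        obtain ⟨x, hx, rfl⟩ := Finset.mem_image.mp hz
        rw [Fintype.mem_piFinset]
        exact hper x hx
    _ ≤ B ^ M := by
        rw [Fintype.card_piFinset]
        calc ∏ _j : Fin M, hfin.toFinset.card ≤ ∏ _j : Fin M, B := by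
              refine Finset.prod_le_prod' fun j _ => ?_
              rw [hfin.encard_eq_coe_toFinset_card] at hB
              exact_mod_cast hB
          _ = B ^ M := by simp

/-- **Counting in a fibred map.** -/
theorem fib_cnt (hd : 0 < d) {F : V → V} (hF : ∀ (a : K) (x : V), F (a • x) = a ^ d • F x)
    (hF0 : ∀ x, x ≠ 0 → F x ≠ 0)
    {h : Fin M → V → K} (hh : ∀ j (a : K) (x : V), h j (a • x) = a ^ d * h j x) {Λ : Set K}
    (hΛ : ∀ l ∈ Λ, l ≠ 0) {B : ℕ}
    (hB : ∀ l ∈ Λ, ∀ c : K, {y : K | Pre (fun z => l⁻¹ * z ^ d + c) y}.encard ≤ B)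
    (hB0 : {y : K | Pre (fun z : K => z ^ d + 0) y}.encard ≤ B) {C κ : ℕ}
    (hG : Good K F C κ Λ) :
    Cnt K (fib F h d) ((d ^ M) ^ κ * B ^ M * C + B ^ M) := by
  classical
  intro S hS0 hSp hS
  rw [← Finset.card_filter_add_card_filter_not (s := S) (fun z => z.1 ≠ 0)]
  refine Nat.add_le_add ?_ ?_
  · set S1 := S.filter (fun z => z.1 ≠ 0) with hS1
    have hmem : ∀ z ∈ S1, z ∈ S ∧ z.1 ≠ 0 := fun z hz => Finset.mem_filter.mp hz
    have hR : (S1.image fun z => rep K z.1).card ≤ C := by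
      refine hG.cnt _ ?_ ?_ ?_
      · intro r hr
        obtain ⟨z, hz, rfl⟩ := Finset.mem_image.mp hr
        obtain ⟨a, ha, h1⟩ := rep_spec K z.1
        intro h0
        rw [h0, smul_zero] at h1
        exact (hmem z hz).2 h1
      · intro r hr r' hr' a hrr
        obtain ⟨z, hz, rfl⟩ := Finset.mem_image.mp hr
        obtain ⟨z', hz', rfl⟩ := Finset.mem_image.mp hr'
        have ha : a ≠ 0 := by
          rintro rfl
          rw [zero_smul] at hrr
          obtain ⟨b, hb, h1⟩ := rep_spec K z.1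
          rw [hrr, smul_zero] at h1
          exact (hmem z hz).2 h1
        have h2 := rep_eq K ⟨a, ha, hrr⟩
        rwa [rep_rep, rep_rep] at h2
      · intro r hr
        obtain ⟨z, hz, rfl⟩ := Finset.mem_image.mp hr
        obtain ⟨a, ha, h1⟩ := rep_spec K z.1
        have h2 : rep K z.1 = a⁻¹ • z.1 := by
          conv_rhs => rw [h1]
          rw [smul_smul, inv_mul_cancel₀ ha, one_smul]
        rw [h2]
        exact (pp_fst (hS z (hmem z hz).1)).smul hF (inv_ne_zero ha)
    refine (Finset.card_le_mul_card_image (f := fun z => rep K z.1) S1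
      ((d ^ M) ^ κ * B ^ M) ?_).trans (Nat.mul_le_mul_left _ hR)
    intro r hr
    obtain ⟨z0, hz0, hr0⟩ := Finset.mem_image.mp hr
    -- scalars
    have hsc : ∀ z : V × (Fin M → K), ∃ a : K, a ≠ 0 ∧ z.1 = a • rep K z.1 := fun z =>
      rep_spec K z.1
    choose a ha haz using hsc
    set S2 := S1.filter (fun z => rep K z.1 = r) with hS2
    have hmem2 : ∀ z ∈ S2, z ∈ S1 ∧ rep K z.1 = r := fun z hz => Finset.mem_filter.mp hz
    have hz2 : ∀ z ∈ S2, (a z)⁻¹ • z = ((r, (a z)⁻¹ • z.2) : V × (Fin M → K)) := by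
      intro z hz
      refine Prod.ext ?_ rfl
      rw [Prod.smul_fst]
      conv_lhs => rw [haz z]
      rw [smul_smul, inv_mul_cancel₀ (ha z), one_smul, (hmem2 z hz).2]
    have hinj : Set.InjOn (fun z : V × (Fin M → K) => (a z)⁻¹ • z.2) S2 := by
      intro z hz z' hz' hzz
      refine hSp z (hmem z (hmem2 z hz).1).1 z' (hmem z' (hmem2 z' hz').1).1 (a z * (a z')⁻¹) ?_
      have e1 : z = a z • ((r, (a z)⁻¹ • z.2) : V × (Fin M → K)) := by
        rw [← hz2 z hz, smul_smul, mul_inv_cancel₀ (ha z), one_smul]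
      simp only at hzz
      rw [mul_smul, hz2 z' hz', ← hzz]
      exact e1
    rw [← Finset.card_image_of_injOn hinj]
    have hr1 : r ≠ 0 := by
      rintro rfl
      have h1 := haz z0
      rw [hr0, smul_zero] at h1
      exact (hmem z0 hz0).2 h1
    have hrP : PP K F r := by
      have h2 : r = (a z0)⁻¹ • z0.1 := by
        conv_rhs => rw [haz z0]
        rw [smul_smul, inv_mul_cancel₀ (ha z0), one_smul, hr0]
      rw [h2]
      exact (pp_fst (hS z0 (hmem z0 hz0).1)).smul hF (inv_ne_zero (ha z0))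
    refine cnt_over hd hF hF0 hh hΛ hB κ r hr1 (hG.fix r hr1 hrP) _ ?_
    intro y hy
    obtain ⟨z, hz, rfl⟩ := Finset.mem_image.mp hy
    rw [← hz2 z hz]
    exact (hS z (hmem z (hmem2 z hz).1).1).smul (fib_smul hF hh) (inv_ne_zero (ha z))
  · refine cnt_zero hd hF hh hB0 _ ?_ ?_ ?_ ?_
    · intro x hx
      exact hS0 x (Finset.mem_filter.mp hx).1
    · intro x hx y hy
      exact hSp x (Finset.mem_filter.mp hx).1 y (Finset.mem_filter.mp hy).1
    · intro x hx
      exact hS x (Finset.mem_filter.mp hx).1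
    · intro x hx
      have := (Finset.mem_filter.mp hx).2
      simpa using this

/-- **One more level of a tower.** -/
theorem fib_good (hd : 0 < d) {F : V → V} (hF : ∀ (a : K) (x : V), F (a • x) = a ^ d • F x)
    (hF0 : ∀ x, x ≠ 0 → F x ≠ 0)
    {h : Fin 1 → V → K} (hh : ∀ j (a : K) (x : V), h j (a • x) = a ^ d * h j x) {Λ : Set K}
    (hΛ : ∀ l ∈ Λ, l ≠ 0) (h1Λ : (1 : K) ∈ Λ) {B : ℕ}
    (hB : ∀ l ∈ Λ, ∀ c : K, {y : K | Pre (fun z => l⁻¹ * z ^ d + c) y}.encard ≤ B)
    (hB0 : {y : K | Pre (fun z : K => z ^ d + 0) y}.encard ≤ B) {C κ : ℕ}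
    (hG : Good K F C κ Λ)
    (hE : ∀ l ∈ Λ, ∀ x : V, x ≠ 0 → F x = l • x → ∀ y : K,
      Pre (fun z => l⁻¹ * z ^ d + l⁻¹ * h 0 x) y →
      (fun z => l⁻¹ * z ^ d + l⁻¹ * h 0 x) ((fun z => l⁻¹ * z ^ d + l⁻¹ * h 0 x) y) =
        (fun z => l⁻¹ * z ^ d + l⁻¹ * h 0 x) y) :
    Good K (fib F h d) ((d ^ 1) ^ κ * B ^ 1 * C + B ^ 1) (κ + 1) Λ where
  cnt := fib_cnt hd hF hF0 hh hΛ hB hB0 hG
  fix := by
    rintro ⟨x, y⟩ hz hp
    have hsm := fib_smul (M := 1) hF hh
    by_cases hx : x = 0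
    · subst hx
      have hy : y 0 ≠ 0 := by
        intro h0
        apply hz
        refine Prod.ext rfl ?_
        funext j
        rw [Subsingleton.elim j 0]
        exact h0
      have hit := fib_zero hd hF hh (κ + 1) y
      set w : K := (fun z : K => z ^ d + 0)^[κ + 1] (y 0) with hw
      have hw0 : w ≠ 0 := by
        rw [hw]
        generalize κ + 1 = n
        induction n with
        | zero => simpa using hy
        | succ n ih =>
          rw [Function.iterate_succ_apply']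
          show ((fun z : K => z ^ d + 0)^[n] (y 0)) ^ d + 0 ≠ 0
          rw [add_zero]
          exact pow_ne_zero _ ih
      refine ⟨w⁻¹, inv_ne_zero hw0, 1, h1Λ, ?_⟩
      have h1 : w⁻¹ • (fib F h d)^[κ + 1] (0, y) = ((0, fun _ => 1) : V × (Fin 1 → K)) := by
        rw [hit]
        refine Prod.ext ?_ ?_
        · simp
        · funext j
          rw [Subsingleton.elim j 0]
          simp only [Prod.smul_snd, Pi.smul_apply, smul_eq_mul, ← hw]
          exact inv_mul_cancel₀ hw0
      rw [h1, one_smul]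
      have h2 := fib_zero hd hF hh 1 (fun _ => (1 : K))
      rw [Function.iterate_one] at h2
      rw [h2]
      refine Prod.ext rfl ?_
      funext j
      simp
    · obtain ⟨s, hs, l, hl, hfix⟩ := hG.fix x hx (pp_fst hp)
      have hl0 := hΛ l hl
      set x1 := s • F^[κ] x with hx1
      have hx10 : x1 ≠ 0 := smul_ne_zero hs (it_ne hF0 κ hx)
      obtain ⟨y1, hy1⟩ : ∃ y1 : Fin 1 → K, s • (fib F h d)^[κ] (x, y) = (x1, y1) := by
        refine ⟨(s • (fib F h d)^[κ] (x, y)).2, Prod.ext ?_ rfl⟩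
        rw [Prod.smul_fst, fib_fst]
      have hp1 : PP K (fib F h d) (x1, y1) := by
        rw [← hy1]
        exact (hp.iter hsm κ).smul hsm hs
      have hpre := pre_of_fix hF hh hl0 hx10 hfix hp1 0
      set φ : K → K := fun z => l⁻¹ * z ^ d + l⁻¹ * h 0 x1 with hφ
      have hfy : ∀ w : Fin 1 → K, fib F h d (x1, w) =
          l • ((x1, fun _ => φ (w 0)) : V × (Fin 1 → K)) := by
        intro w
        refine Prod.ext ?_ ?_
        · simp [fib, hfix]
        · funext j
          rw [Subsingleton.elim j 0]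
          simp only [fib, hφ, Prod.smul_snd, Pi.smul_apply, smul_eq_mul]
          field_simp
      have e1 : (fib F h d)^[κ] (x, y) = s⁻¹ • ((x1, y1) : V × (Fin 1 → K)) := by
        rw [← hy1, smul_smul, inv_mul_cancel₀ hs, one_smul]
      have e2 : (fib F h d)^[κ + 1] (x, y) =
          ((s⁻¹) ^ d * l) • ((x1, fun _ => φ (y1 0)) : V × (Fin 1 → K)) := by
        rw [Function.iterate_succ_apply', e1, hsm, hfy, smul_smul]
      have hne : (s⁻¹) ^ d * l ≠ 0 := mul_ne_zero (pow_ne_zero _ (inv_ne_zero hs)) hl0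
      refine ⟨((s⁻¹) ^ d * l)⁻¹, inv_ne_zero hne, l, hl, ?_⟩
      rw [e2, smul_smul, inv_mul_cancel₀ hne, one_smul, hfy]
      congr 2
      funext _
      exact hE l hl x1 hx10 hfix (y1 0) hpre

end step

end Pool.Agent.Helper80.FB
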