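import Mathlib
import Pool.Agent.Helper80.FB.Step

set_option autoImplicit false

open MvPolynomial Height

namespace Pool.Agent.Helper80.FB

open Pool.Agent.Helper80.UC

section null

variable {K : Type} [Field K] {ι : Type} [Finite ι] {κ : Type} [Fintype κ]

lemma homcomp_mul {σ : Type} {p g : MvPolynomial σ K} {d : ℕ} (hg : g.IsHomogeneous d) (n : ℕ) :
    homogeneousComponent (n + d) (p * g) = homogeneousComponent n p * g := by
  conv_lhs => rw [← sum_homogeneousComponent p, Finset.sum_mul, map_sum]
  have h1 : ∀ i ∈ Finset.range (p.totalDegree + 1),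
      homogeneousComponent (n + d) (homogeneousComponent i p * g) =
        if n = i then homogeneousComponent i p * g else 0 := by
    intro i _
    rw [homogeneousComponent_of_mem ((homogeneousComponent_isHomogeneous i p).mul hg)]
    by_cases h : n = i
    · simp [h]
    · rw [if_neg h, if_neg (by omega)]
  rw [Finset.sum_congr rfl h1, Finset.sum_ite_eq]
  split_ifs with h
  · rfl
  · rw [Finset.mem_range, not_lt] at h
    rw [homogeneousComponent_eq_zero n p (by omega), zero_mul]

/-- forms without a common zero: the Nullstellensatz relation -/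
theorem null_rel {d : ℕ} (g : κ → MvPolynomial ι K) (hg : ∀ i, (g i).IsHomogeneous d)
    (h0 : ∀ x : ι → AlgebraicClosure K, (∀ i, aeval x (g i) = 0) → x = 0) :
    ∃ (M : ℕ) (q : ι × κ → MvPolynomial ι K), (∀ a, (q a).IsHomogeneous M) ∧
      ∀ k, ∑ j, q (k, j) * g j = X k ^ (M + d) := by
  classical
  have := Fintype.ofFinite ι
  set I : Ideal (MvPolynomial ι K) := Ideal.span (Set.range g) with hI
  have hrad : ∀ k, (X k : MvPolynomial ι K) ∈ I.radical := by
    intro k
    rw [← vanishingIdeal_zeroLocus_eq_radical (K := AlgebraicClosure K) I, mem_vanishingIdeal_iff]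
    intro x hx
    rw [mem_zeroLocus_iff] at hx
    have : x = 0 := h0 x fun i => hx (g i) (Ideal.subset_span ⟨i, rfl⟩)
    rw [this]
    simp
  choose n hn using fun k => hrad k
  set M := ∑ k, n k with hM
  have hmem : ∀ k, (X k : MvPolynomial ι K) ^ (M + d) ∈ I := by
    intro k
    have : n k ≤ M := Finset.single_le_sum (fun _ _ => Nat.zero_le _) (Finset.mem_univ k)
    obtain ⟨e, he⟩ : ∃ e, M + d = n k + e := ⟨M + d - n k, by omega⟩
    rw [he, pow_add]
    exact Ideal.mul_mem_right _ _ (hn k)
  have hrel : ∀ k, ∃ p : κ → MvPolynomial ι K, ∑ j, p j * g j = X k ^ (M + d) := by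
    intro k
    have := hmem k
    rw [hI, Ideal.mem_span_range_iff_exists_fun] at this
    exact this
  choose p hp using hrel
  refine ⟨M, fun a => homogeneousComponent M (p a.1 a.2), fun a =>
    homogeneousComponent_isHomogeneous _ _, fun k => ?_⟩
  have h1 := congrArg (homogeneousComponent (M + d)) (hp k)
  rw [map_sum, homogeneousComponent_eq_self (isHomogeneous_X_pow k (M + d))] at h1
  rw [← h1]
  exact Finset.sum_congr rfl fun j _ => (homcomp_mul (hg j) M).symm

end null

section north

variable {K : Type} [Field K] [NumberField K]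

/-- **Northcott's theorem for endomorphisms of projective space.** -/
theorem north_cnt {m d : ℕ} (hd : 2 ≤ d) (g : Fin (m + 1) → MvPolynomial (Fin (m + 1)) K)
    (hg : ∀ i, (g i).IsHomogeneous d)
    (h0 : ∀ x : Fin (m + 1) → AlgebraicClosure K, (∀ i, aeval x (g i) = 0) → x = 0) :
    ∃ C : ℕ, Cnt K (fun (x : Fin (m + 1) → K) i => eval x (g i)) C := by
  classical
  obtain ⟨M, q, hq, hrel⟩ := null_rel g hg h0
  obtain ⟨c, hc⟩ := logHeight_eval_ge' (K := K) (N := d) hq
  set F : (Fin (m + 1) → K) → (Fin (m + 1) → K) := fun x i => eval x (g i) with hF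
  set A : ℝ := max 0 (-c) with hA
  have hA0 : 0 ≤ A := le_max_left _ _
  have hAc : -c ≤ A := le_max_right _ _
  have hstep : ∀ x, 2 * logHeight x - A ≤ logHeight (F x) := by
    intro x
    have h1 := hc g (x := x) (fun k => by
      have h2 := congrArg (eval x) (hrel k)
      simpa using h2)
    have h3 : (2 : ℝ) ≤ d := by exact_mod_cast hd
    have h4 := logHeight_nonneg x
    have h5 : logHeight (fun j => eval x (g j)) = logHeight (F x) := rfl
    rw [h5] at h1
    nlinarith
  have hsmall : ∀ x, PP K F x → logHeight x ≤ A := by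
    rintro x ⟨k, n, hkn, a, ha, h⟩
    by_contra hcon
    push Not at hcon
    have h1 : ∀ j, A < logHeight (F^[j] x) := by
      intro j
      induction j with
      | zero => simpa using hcon
      | succ j ih =>
        rw [Function.iterate_succ_apply']
        have := hstep (F^[j] x)
        linarith
    have h2 : StrictMono fun j => logHeight (F^[j] x) := by
      apply strictMono_nat_of_lt_succ
      intro j
      rw [Function.iterate_succ_apply']
      have := hstep (F^[j] x)
      have := h1 j
      linarith
    have h3 := h2 hkn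
    simp only [h, logHeight_smul_eq_logHeight _ ha] at h3
    exact lt_irrefl _ h3
  have hfin := NumberField.finite_setOfPred_logHeight₁_le (K := K) A
  refine ⟨hfin.toFinset.card ^ (m + 1), ?_⟩
  intro S hS0 hSp hS
  have hnorm : ∀ x ∈ S, ∃ (b : K) (y : Fin (m + 1) → K), b ≠ 0 ∧ x = b • y ∧
      ∀ i, y i ∈ hfin.toFinset := by
    intro x hx
    obtain ⟨j, hj⟩ : ∃ j, x j ≠ 0 := by
      by_contra hcon
      push Not at hcon
      exact hS0 x hx (funext hcon)
    refine ⟨x j, (x j)⁻¹ • x, hj, by rw [smul_smul, mul_inv_cancel₀ hj, one_smul], fun i => ?_⟩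
    rw [Set.Finite.mem_toFinset]
    show logHeight₁ (((x j)⁻¹ • x) i) ≤ A
    have h1 : ((x j)⁻¹ • x) i = x i / x j := by
      rw [Pi.smul_apply, smul_eq_mul, div_eq_mul_inv, mul_comm]
    rw [h1, logHeight₁_div_eq_logHeight]
    have h2 : ![x i, x j] = x ∘ ![i, j] := by
      ext k
      fin_cases k <;> rfl
    rw [h2]
    exact (logHeight_comp_le _ x).trans (hsmall x (hS x hx))
  choose! b y hb hy hper using hnorm
  have hyinj : Set.InjOn y S := by
    intro x hx x' hx' h
    refine hSp x hx x' hx' (b x * (b x')⁻¹) ?_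
    have h2 : (b x')⁻¹ • x' = y x' := by
      have h3 := congrArg (fun z => (b x')⁻¹ • z) (hy x' hx')
      simp only [smul_smul, inv_mul_cancel₀ (hb x' hx'), one_smul] at h3
      exact h3
    calc x = b x • y x := hy x hx
      _ = b x • y x' := by rw [h]
      _ = (b x * (b x')⁻¹) • x' := by rw [← h2, smul_smul]
  calc S.card = (S.image y).card := (Finset.card_image_of_injOn hyinj).symm
    _ ≤ (Fintype.piFinset fun _ : Fin (m + 1) => hfin.toFinset).card := by
        refine Finset.card_le_card fun z hz => ?_
        obtain ⟨x, hx, rfl⟩ := Finset.mem_image.mp hz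
        rw [Fintype.mem_piFinset]
        exact hper x hx
    _ = hfin.toFinset.card ^ (m + 1) := by simp

end north

end Pool.Agent.Helper80.FB
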