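import Mathlib
import Pool.Agent.Helper80.FB.North

set_option autoImplicit false

open MvPolynomial

namespace Pool.Agent.Helper80.FB

open Pool.Agent.Helper80.UC

section

variable {K V : Type} [Field K] [AddCommGroup V] [Module K V] {d : ℕ}

/-- if all periodic points are fixed then all preperiodic points fall into fixed points -/
theorem good_of_cnt {F : V → V} (hF : ∀ (a : K) (x : V), F (a • x) = a ^ d • F x)
    (hF0 : ∀ x, x ≠ 0 → F x ≠ 0) {C : ℕ} (hC : Cnt K F C)
    (hper : ∀ x, x ≠ 0 → (∃ n : ℕ, 0 < n ∧ ∃ a : K, a ≠ 0 ∧ F^[n] x = a • x) →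
      ∃ b : K, F x = b • x) :
    ∃ Λ : Set K, Λ.Finite ∧ (∀ l ∈ Λ, l ≠ 0) ∧ Good K F C C Λ := by
  classical
  set R : Set V := {r | ∃ x : V, x ≠ 0 ∧ PP K F x ∧ rep K x = r} with hR
  have hRmem : ∀ r ∈ R, r ≠ 0 ∧ PP K F r ∧ rep K r = r := by
    rintro r ⟨x, hx, hp, rfl⟩
    obtain ⟨a, ha, h1⟩ := rep_spec K x
    have h2 : rep K x = a⁻¹ • x := by
      conv_rhs => rw [h1]
      rw [smul_smul, inv_mul_cancel₀ ha, one_smul]
    refine ⟨?_, ?_, rep_rep K x⟩
    · intro h0
      rw [h0, smul_zero] at h1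
      exact hx h1
    · rw [h2]
      exact hp.smul hF (inv_ne_zero ha)
  have hRfin : R.Finite := by
    by_contra hinf
    obtain ⟨T, hT, hcard⟩ := (show R.Infinite from hinf).exists_subset_card_eq (C + 1)
    have h1 := hC T (fun x hx => (hRmem x (hT hx)).1) ?_ (fun x hx => (hRmem x (hT hx)).2.1)
    · omega
    · intro x hx y hy a h
      have ha : a ≠ 0 := by
        rintro rfl
        rw [zero_smul] at h
        exact (hRmem x (hT hx)).1 h
      have h2 := rep_eq K ⟨a, ha, h⟩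
      rwa [(hRmem x (hT hx)).2.2, (hRmem y (hT hy)).2.2] at h2
  set Λ : Set K := {l | ∃ r ∈ R, F r = l • r} with hΛ
  have hΛfin : Λ.Finite := by
    have h1 : Λ ⊆ ⋃ r ∈ R, {l | r ≠ 0 ∧ F r = l • r} := by
      rintro l ⟨r, hr, h⟩
      simp only [Set.mem_iUnion]
      exact ⟨r, hr, (hRmem r hr).1, h⟩
    refine (hRfin.biUnion fun r _ => ?_).subset h1
    refine Set.Subsingleton.finite ?_
    rintro l ⟨hr, h⟩ l' ⟨-, h'⟩
    have h2 : (l - l') • r = 0 := by rw [sub_smul, ← h, ← h', sub_self]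
    rcases smul_eq_zero.mp h2 with h3 | h3
    · exact sub_eq_zero.mp h3
    · exact absurd h3 hr
  refine ⟨Λ, hΛfin, ?_, hC, ?_⟩
  · rintro l ⟨r, hr, h⟩ rfl
    rw [zero_smul] at h
    exact hF0 r (hRmem r hr).1 h
  · intro x hx hp
    -- a repetition among the first `C + 1` iterates
    obtain ⟨i, j, hij, hjC, a, ha, hrep⟩ : ∃ i j : ℕ, i < j ∧ j ≤ C ∧ ∃ a : K, a ≠ 0 ∧
        F^[j] x = a • F^[i] x := by
      by_contra hcon
      push Not at hcon
      have hne : ∀ n, F^[n] x ≠ 0 := fun n => it_ne hF0 n hx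
      have hkey : ∀ i ∈ Finset.range (C + 1), ∀ j ∈ Finset.range (C + 1), ∀ a : K,
          F^[i] x = a • F^[j] x → i = j := by
        intro i hi j hj a h
        rw [Finset.mem_range] at hi hj
        have ha : a ≠ 0 := by
          rintro rfl
          rw [zero_smul] at h
          exact hne i h
        by_contra hne'
        rcases lt_or_gt_of_ne hne' with h1 | h1
        · refine hcon i j h1 (by omega) a⁻¹ (inv_ne_zero ha) ?_
          rw [h, smul_smul, inv_mul_cancel₀ ha, one_smul]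
        · exact hcon j i h1 (by omega) a ha h
      have h1 := hC ((Finset.range (C + 1)).image fun n => F^[n] x) ?_ ?_ ?_
      · rw [Finset.card_image_of_injOn, Finset.card_range] at h1
        · omega
        · intro i hi j hj h
          exact hkey i hi j hj 1 (by rw [one_smul]; exact h)
      · intro z hz
        obtain ⟨i, hi, rfl⟩ := Finset.mem_image.mp hz
        exact hne i
      · intro z hz z' hz' a h
        obtain ⟨i, hi, rfl⟩ := Finset.mem_image.mp hz
        obtain ⟨j, hj, rfl⟩ := Finset.mem_image.mp hz'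
        rw [hkey i hi j hj a h]
      · intro z hz
        obtain ⟨i, hi, rfl⟩ := Finset.mem_image.mp hz
        exact hp.iter hF i
    -- `F^[i] x` is fixed
    obtain ⟨b, hb⟩ := hper (F^[i] x) (it_ne hF0 i hx) ⟨j - i, by omega, a, ha, by
      rw [← Function.iterate_add_apply, Nat.sub_add_cancel hij.le, hrep]⟩
    have hall : ∀ k, ∃ b : K, F (F^[i + k] x) = b • F^[i + k] x := by
      intro k
      induction k with
      | zero => exact ⟨b, hb⟩
      | succ k ih =>
        obtain ⟨b', hb'⟩ := ih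
        refine ⟨b' ^ d, ?_⟩
        rw [← add_assoc, Function.iterate_succ_apply']
        conv_lhs => rw [hb', hF]
    obtain ⟨b', hb'⟩ := hall (C - i)
    rw [show i + (C - i) = C by omega] at hb'
    set w := F^[C] x with hw
    have hw0 : w ≠ 0 := it_ne hF0 C hx
    obtain ⟨s, hs, h1⟩ := rep_spec K w
    have h2 : s⁻¹ • w = rep K w := by
      conv_lhs => rw [h1]
      rw [smul_smul, inv_mul_cancel₀ hs, one_smul]
    have hFr : F (s⁻¹ • w) = (s⁻¹ ^ d * b' * s) • (s⁻¹ • w) := by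
      rw [hF, hb', smul_smul, smul_smul, mul_assoc (s⁻¹ ^ d * b'), mul_inv_cancel₀ hs, mul_one]
    refine ⟨s⁻¹, inv_ne_zero hs, s⁻¹ ^ d * b' * s, ?_, hFr⟩
    rw [h2] at hFr
    exact ⟨rep K w, ⟨w, hw0, hp.iter hF C, rfl⟩, hFr⟩

end

/-- a uniform bound for finitely many twists -/
theorem exists_B (K : Type) [Field K] [NumberField K] {d : ℕ} (hd : 5 ≤ d) {Λ : Set K}
    (hΛ : Λ.Finite) (hΛ0 : ∀ l ∈ Λ, l ≠ 0) : ∃ B : ℕ,
    (∀ l ∈ Λ, ∀ c : K, {y : K | Pre (fun z => l⁻¹ * z ^ d + c) y}.encard ≤ B) ∧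
      {y : K | Pre (fun z : K => z ^ d + 0) y}.encard ≤ B := by
  classical
  have h1 : ∀ l ∈ Λ, ∃ B : ℕ, ∀ c : K, {y : K | Pre (fun z => l⁻¹ * z ^ d + c) y}.encard ≤ B := by
    intro l hl
    obtain ⟨B, E, -, hB⟩ := UB_struct K hd l⁻¹ (inv_ne_zero (hΛ0 l hl))
    exact ⟨B, fun c => (hB c).1⟩
  choose! B hB using h1
  obtain ⟨B0, hB0⟩ := UB1 K hd
  refine ⟨∑ l ∈ hΛ.toFinset, B l + B0, fun l hl c => (hB l hl c).trans ?_, (hB0 0).trans ?_⟩
  · have h2 : B l ≤ ∑ l ∈ hΛ.toFinset, B l :=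
      Finset.single_le_sum (f := B) (fun _ _ => Nat.zero_le _) (hΛ.mem_toFinset.mpr hl)
    exact_mod_cast h2.trans (Nat.le_add_right _ _)
  · exact_mod_cast Nat.le_add_left _ _

section

variable {K : Type} [Field K]

lemma eval_smul_hom {σ : Type} {d : ℕ} {p : MvPolynomial σ K} (hp : p.IsHomogeneous d) (a : K)
    (x : σ → K) : eval (a • x) p = a ^ d * eval x p := by
  rw [eval_eq, eval_eq, Finset.mul_sum]
  refine Finset.sum_congr rfl fun m hm => ?_
  have hdeg : ∑ i ∈ m.support, m i = d := by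
    have h1 : m.degree = d := by
      by_contra hne
      exact mem_support_iff.mp hm (hp.coeff_eq_zero hne)
    rwa [Finsupp.degree_apply] at h1
  have h1 : ∏ i ∈ m.support, (a • x) i ^ m i = a ^ d * ∏ i ∈ m.support, x i ^ m i := by
    rw [← hdeg, ← Finset.prod_pow_eq_pow_sum, ← Finset.prod_mul_distrib]
    refine Finset.prod_congr rfl fun i _ => ?_
    rw [Pi.smul_apply, smul_eq_mul, mul_pow]
  rw [h1]; ring

/-- splitting coordinates indexed by a sum type -/
def splitMap (m M : ℕ) : (Fin (m + 1) ⊕ Fin M → K) →ₗ[K] (Fin (m + 1) → K) × (Fin M → K) where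
  toFun z := (fun i => z (Sum.inl i), fun j => z (Sum.inr j))
  map_add' _ _ := rfl
  map_smul' _ _ := rfl

lemma splitMap_inj (m M : ℕ) : Function.Injective (splitMap (K := K) m M) := by
  intro z z' h
  have h1 := congrArg Prod.fst h
  have h2 := congrArg Prod.snd h
  funext i
  rcases i with i | j
  · exact congrFun h1 i
  · exact congrFun h2 j

end

/-- **Uniform bound over a fixed base.** -/
theorem fixed_base (K : Type) [Field K] [NumberField K] {m d : ℕ} (hd : 5 ≤ d)
    (g : Fin (m + 1) → MvPolynomial (Fin (m + 1)) K) (hg : ∀ i, (g i).IsHomogeneous d)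
    (h0 : ∀ x : Fin (m + 1) → AlgebraicClosure K, (∀ i, aeval x (g i) = 0) → x = 0)
    (hper : ∀ x : Fin (m + 1) → K, x ≠ 0 →
      (∃ n : ℕ, 0 < n ∧ ∃ a : K, a ≠ 0 ∧ (fun y i => eval y (g i))^[n] x = a • x) →
      ∃ b : K, (fun i => eval x (g i)) = b • x) (M : ℕ) :
    ∃ C : ℕ, ∀ H : Fin M → MvPolynomial (Fin (m + 1)) K, (∀ j, (H j).IsHomogeneous d) →
      Cnt K (fib (fun (x : Fin (m + 1) → K) i => eval x (g i)) (fun j x => eval x (H j)) d) C := by
  obtain ⟨C, hC⟩ := north_cnt (show 2 ≤ d by omega) g hg h0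
  set F : (Fin (m + 1) → K) → (Fin (m + 1) → K) := fun x i => eval x (g i) with hFdef
  have hF : ∀ (a : K) (x : Fin (m + 1) → K), F (a • x) = a ^ d • F x := by
    intro a x
    funext i
    rw [hFdef]
    simp only [Pi.smul_apply, smul_eq_mul]
    exact eval_smul_hom (hg i) a x
  have hF0 : ∀ x, x ≠ 0 → F x ≠ 0 := by
    intro x hx h1
    apply hx
    have h2 := h0 (fun i => algebraMap K (AlgebraicClosure K) (x i)) (fun i => by
      have h3 : eval x (g i) = 0 := congrFun h1 i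
      have h4 : aeval (algebraMap K (AlgebraicClosure K) ∘ x) (g i) =
          algebraMap K (AlgebraicClosure K) (aeval x (g i)) := aeval_algebraMap_apply _ _ _
      have h5 : aeval x (g i) = eval x (g i) := by rw [aeval_eq_eval]
      rw [h5, h3, map_zero] at h4
      exact h4)
    funext i
    have h3 := congrFun h2 i
    exact (algebraMap K (AlgebraicClosure K)).injective (by simpa using h3)
  obtain ⟨Λ, hΛ, hΛ0, hG⟩ := good_of_cnt hF hF0 hC hper
  obtain ⟨B, hB, hB0⟩ := exists_B K hd hΛ hΛ0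
  exact ⟨_, fun H hH => fib_cnt (show 0 < d by omega) hF hF0
    (fun j a x => eval_smul_hom (hH j) a x) hΛ0 hB hB0 hG⟩

end Pool.Agent.Helper80.FB
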