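import Mathlib
import Pool.Agent.Helper80.FB.Base

set_option autoImplicit false

open MvPolynomial

namespace Pool.Agent.Helper80.FB

open Pool.Agent.Helper80.UC

section tower

variable {K : Type} [Field K] {d : ℕ}

lemma fin0 (k : Fin (0 + 1)) : k = 0 := Subsingleton.elim (α := Fin 1) k 0

/-- the truncations of a tower, defined recursively -/
def tw (d : ℕ) (h : ∀ i : ℕ, (Fin (i + 1) → K) → K) : ∀ i : ℕ, (Fin (i + 1) → K) → (Fin (i + 1) → K)
  | 0, x => fun _ => x 0 ^ d
  | i + 1, x => Fin.snoc (α := fun _ => K) (tw d h i (fun k => x k.castSucc))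
      (x (Fin.last (i + 1)) ^ d + h i (fun k => x k.castSucc))

lemma tw_castSucc (h : ∀ i : ℕ, (Fin (i + 1) → K) → K) (i : ℕ) (x : Fin (i + 2) → K)
    (k : Fin (i + 1)) : tw d h (i + 1) x k.castSucc = tw d h i (fun k => x k.castSucc) k := by
  simp [tw]

lemma tw_last (h : ∀ i : ℕ, (Fin (i + 1) → K) → K) (i : ℕ) (x : Fin (i + 2) → K) :
    tw d h (i + 1) x (Fin.last (i + 1)) =
      x (Fin.last (i + 1)) ^ d + h i (fun k => x k.castSucc) := by
  simp [tw]

lemma tw_smul {h : ∀ i : ℕ, (Fin (i + 1) → K) → K}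
    (hh : ∀ i (a : K) x, h i (a • x) = a ^ d * h i x) (i : ℕ) (a : K) (x : Fin (i + 1) → K) :
    tw d h i (a • x) = a ^ d • tw d h i x := by
  induction i with
  | zero =>
    funext k
    simp [tw, mul_pow]
  | succ i ih =>
    have h1 : (fun k : Fin (i + 1) => (a • x) k.castSucc) = a • (fun k => x k.castSucc) := rfl
    funext k
    refine Fin.lastCases ?_ (fun k => ?_) k
    · rw [Pi.smul_apply, tw_last, tw_last, h1, hh, Pi.smul_apply, smul_eq_mul, smul_eq_mul, mul_pow,
        mul_add]
    · rw [Pi.smul_apply, tw_castSucc, tw_castSucc, h1, ih, Pi.smul_apply]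

lemma tw_ne (hd : 0 < d) {h : ∀ i : ℕ, (Fin (i + 1) → K) → K}
    (hh : ∀ i (a : K) x, h i (a • x) = a ^ d * h i x) (i : ℕ) (x : Fin (i + 1) → K) (hx : x ≠ 0) :
    tw d h i x ≠ 0 := by
  induction i with
  | zero =>
    intro h0
    apply hx
    funext k
    have h1 := congrFun h0 k
    rw [fin0 k] at h1 ⊢
    simp only [tw, Pi.zero_apply] at h1
    simpa using (pow_eq_zero_iff hd.ne').mp h1
  | succ i ih =>
    intro h0
    have h1 : (fun k : Fin (i + 1) => x k.castSucc) = 0 := by
      by_contra hne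
      apply ih _ hne
      funext k
      rw [← tw_castSucc, h0]
      rfl
    apply hx
    funext k
    refine Fin.lastCases ?_ (fun k => ?_) k
    · have h2 := congrFun h0 (Fin.last (i + 1))
      have h3 : h i 0 = 0 := by
        have := hh i 0 0
        rwa [zero_smul, zero_pow hd.ne', zero_mul] at this
      rw [tw_last, h1, h3, add_zero, Pi.zero_apply] at h2
      simpa using (pow_eq_zero_iff hd.ne').mp h2
    · exact congrFun h1 k

/-- splitting off the last coordinate -/
def splitLast (i : ℕ) : (Fin (i + 2) → K) →ₗ[K] (Fin (i + 1) → K) × (Fin 1 → K) where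
  toFun x := (fun k => x k.castSucc, fun _ => x (Fin.last (i + 1)))
  map_add' _ _ := rfl
  map_smul' _ _ := rfl

lemma splitLast_inj (i : ℕ) : Function.Injective (splitLast (K := K) i) := by
  intro z z' h
  have h1 := congrArg Prod.fst h
  have h2 := congrArg Prod.snd h
  funext k
  refine Fin.lastCases ?_ (fun k => ?_) k
  · exact congrFun h2 0
  · exact congrFun h1 k

/-- the bounds -/
def Cb (d B : ℕ) : ℕ → ℕ
  | 0 => 1
  | i + 1 => (d ^ 1) ^ i * B ^ 1 * Cb d B i + B ^ 1

theorem tw_good (hd : 0 < d) {h : ∀ i : ℕ, (Fin (i + 1) → K) → K}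
    (hh : ∀ i (a : K) x, h i (a • x) = a ^ d * h i x) {B : ℕ}
    (hB : ∀ c : K, {y : K | Pre (fun z => z ^ d + c) y}.encard ≤ B) (n : ℕ)
    (hE : ∀ i < n, ∀ x : Fin (i + 1) → K, x ≠ 0 → tw d h i x = x → ∀ y : K,
      Pre (fun z => z ^ d + h i x) y →
      (y ^ d + h i x) ^ d + h i x = y ^ d + h i x) :
    ∀ i ≤ n, Good K (tw d h i) (Cb d B i) i {1} := by
  intro i
  induction i with
  | zero =>
    intro _
    refine ⟨?_, ?_⟩
    · intro S hS0 hSp _
      rw [show Cb d B 0 = 1 from rfl, Finset.card_le_one]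
      intro x hx y hy
      have hy0 : y 0 ≠ 0 := by
        intro h0
        apply hS0 y hy
        funext k
        rw [fin0 k]
        exact h0
      refine hSp x hx y hy (x 0 / y 0) ?_
      funext k
      rw [fin0 k, Pi.smul_apply, smul_eq_mul, div_mul_cancel₀ _ hy0]
    · intro x hx _
      have hx0 : x 0 ≠ 0 := by
        intro h0
        apply hx
        funext k
        rw [fin0 k]
        exact h0
      refine ⟨(x 0)⁻¹, inv_ne_zero hx0, 1, rfl, ?_⟩
      rw [one_smul, Function.iterate_zero, id]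
      funext k
      rw [fin0 k]
      simp only [tw, Pi.smul_apply, smul_eq_mul]
      rw [inv_mul_cancel₀ hx0, one_pow]
  | succ i ih =>
    intro hi
    have hG := ih (by omega)
    have hst := fib_good (K := K) (h := fun _ => h i) hd (tw_smul hh i)
      (fun x hx => tw_ne hd hh i x hx) (fun _ => hh i) (Λ := {1})
      (by rintro l rfl; exact one_ne_zero) rfl (B := B)
      (by
        rintro l rfl c
        have := hB c
        simpa only [inv_one, one_mul] using this)
      (hB 0) hG
      (by
        rintro l rfl x hx hfix y hy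
        rw [one_smul] at hfix
        simp only [inv_one, one_mul] at hy ⊢
        exact hE i (by omega) x hx hfix y hy)
    refine Good.pull (fib_smul (tw_smul hh i) (fun _ => hh i)) (splitLast i) (splitLast_inj i) ?_ hst
    intro x
    refine Prod.ext ?_ ?_
    · funext k
      exact tw_castSucc h i x k
    · funext k
      exact tw_last h i x

lemma tw_zero (h : ∀ i : ℕ, (Fin (i + 1) → K) → K) (i : ℕ) (x : Fin (i + 1) → K) :
    tw d h i x 0 = x 0 ^ d := by
  induction i with
  | zero => rfl
  | succ i ih =>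
    have := tw_castSucc (d := d) h i x 0
    rw [Fin.castSucc_zero] at this
    rw [this, ih]
    rfl

lemma tw_succ (h : ∀ i : ℕ, (Fin (i + 1) → K) → K) (i : ℕ) (x : Fin (i + 1) → K) (k : ℕ)
    (hk : k < i) : tw d h i x ⟨k + 1, by omega⟩ =
      x ⟨k + 1, by omega⟩ ^ d + h k (fun j => x ⟨j, by omega⟩) := by
  induction i with
  | zero => omega
  | succ i ih =>
    rcases Nat.lt_succ_iff_lt_or_eq.mp hk with h1 | h1
    · have h2 := tw_castSucc (d := d) h i x ⟨k + 1, by omega⟩
      have h3 : (⟨k + 1, by omega⟩ : Fin (i + 2)) = Fin.castSucc ⟨k + 1, by omega⟩ := rfl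
      rw [h3, h2, ih (fun k => x k.castSucc) h1]
      rfl
    · subst h1
      exact tw_last h k x

end tower

end Pool.Agent.Helper80.FB
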