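import Mathlib
import Pool.Agent.Helper80.FB.Tower

set_option autoImplicit false

open MvPolynomial

namespace Pool.Agent.Helper80.FB

section dep

variable {K : Type} [Field K]

lemma eval_aeval' {σ τ : Type} (Ψ : σ → MvPolynomial τ K) (s : τ → K) (Q : MvPolynomial σ K) :
    eval s (aeval Ψ Q) = eval (fun p => eval s (Ψ p)) Q := by
  induction Q using MvPolynomial.induction_on with
  | C a => simp
  | add p q hp hq => simp only [map_add, hp, hq]
  | mul_X p q hp => simp only [map_mul, hp, aeval_X, eval_X]

/-- more polynomials than variables are algebraically dependent -/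
theorem dep {σ : Type} [Finite σ] (Φ : σ → MvPolynomial σ K) (p0 : σ) :
    ∃ Q : MvPolynomial σ K, Q ≠ 0 ∧
      ∀ t : σ → K, t p0 = 0 → eval (fun p => eval t (Φ p)) Q = 0 := by
  classical
  let τ := {p : σ // p ≠ p0}
  let ρ : MvPolynomial σ K →ₐ[K] MvPolynomial τ K :=
    aeval (fun p => if h : p ≠ p0 then X ⟨p, h⟩ else 0)
  have hnot : ¬ AlgebraicIndependent K (fun p => ρ (Φ p)) := by
    intro hind
    have h1 := hind.cardinalMk_le_trdeg
    rw [MvPolynomial.trdeg_of_isDomain, Cardinal.lift_id] at h1
    have := Fintype.ofFinite σ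
    rw [Cardinal.mk_fintype, Cardinal.mk_fintype, Nat.cast_le] at h1
    have h2 : Fintype.card τ < Fintype.card σ := Fintype.card_subtype_lt (x := p0) (by simp)
    omega
  rw [algebraicIndependent_iff] at hnot
  push Not at hnot
  obtain ⟨Q, hQ, hQ0⟩ := hnot
  refine ⟨Q, hQ0, fun t ht => ?_⟩
  have h1 : ∀ P : MvPolynomial σ K, eval (fun p : τ => t p.1) (ρ P) = eval t P := by
    intro P
    induction P using MvPolynomial.induction_on with
    | C a => simp [ρ]
    | add p q hp hq => simp only [map_add, hp, hq]
    | mul_X p q hp =>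
      simp only [map_mul, hp, eval_X]
      congr 1
      by_cases h : q ≠ p0
      · simp only [ρ, aeval_X, dif_pos h, eval_X]
      · rw [not_not] at h
        subst h
        simp [ρ, ht]
  have h2 := eval_aeval' (fun p => ρ (Φ p)) (fun p : τ => t p.1) Q
  rw [hQ, map_zero] at h2
  have h3 : (fun p => eval t (Φ p)) = fun p => eval (fun p : τ => t p.1) (ρ (Φ p)) := by
    funext p
    rw [h1]
  rw [h3, ← h2]

end dep

end Pool.Agent.Helper80.FB
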