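import Mathlib
import Pool.Agent.Helper80.FB.Dep

set_option autoImplicit false

open MvPolynomial

namespace Pool.Agent.Helper80.FB

section bad

variable {K : Type} [Field K]

instance finDeg (k d : ℕ) : Finite {m : Fin k →₀ ℕ // m.degree = d} :=
  (Finsupp.finite_of_degree_eq d).to_subtype

noncomputable instance ftDeg (k d : ℕ) : Fintype {m : Fin k →₀ ℕ // m.degree = d} :=
  Fintype.ofFinite _

/-- index set of the coefficients -/
abbrev Idx (n d : ℕ) : Type := Σ i : Fin n, {m : Fin (i.val + 1) →₀ ℕ // m.degree = d}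

/-- the value of a form -/
lemma eval_hom_sum {k d : ℕ} {p : MvPolynomial (Fin k) K} (hp : p.IsHomogeneous d)
    (x : Fin k → K) : eval x p =
      ∑ m : {m : Fin k →₀ ℕ // m.degree = d}, p.coeff m.1 * ∏ l, x l ^ m.1 l := by
  classical
  rw [eval_eq']
  have h1 : ∑ m : {m : Fin k →₀ ℕ // m.degree = d}, p.coeff m.1 * ∏ l, x l ^ m.1 l =
      ∑ m ∈ (Finset.univ : Finset {m : Fin k →₀ ℕ // m.degree = d}).map
        (Function.Embedding.subtype _), p.coeff m * ∏ l, x l ^ m l := by
    rw [Finset.sum_map]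
    rfl
  rw [h1]
  refine Finset.sum_subset ?_ ?_
  · intro m hm
    rw [Finset.mem_map]
    refine ⟨⟨m, ?_⟩, Finset.mem_univ _, rfl⟩
    by_contra hne
    exact mem_support_iff.mp hm (hp.coeff_eq_zero hne)
  · intro m _ hm
    rw [notMem_support_iff.mp hm, zero_mul]

/-- the vector of coefficients -/
def co {n d : ℕ} (H : (i : Fin n) → MvPolynomial (Fin (i.val + 1)) K) : Idx n d → K :=
  fun p => (H p.1).coeff p.2.1

theorem bad_poly {n d : ℕ} (i : Fin n) (j : ℕ) (ω e : K) :
    ∃ Q : MvPolynomial (Idx n d) K, Q ≠ 0 ∧ (j ≤ i.val → ω ≠ 0 →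
      ∀ H : (i : Fin n) → MvPolynomial (Fin (i.val + 1)) K, (∀ i, (H i).IsHomogeneous d) →
      ∀ x : ℕ → K, (∀ k < j, x k = 0) → x j = ω → ω ^ d = ω →
      (∀ (k : ℕ) (hk : k < i.val), x (k + 1) ^ d +
        eval (fun l : Fin (k + 1) => x l) (H ⟨k, by omega⟩) = x (k + 1)) →
      eval (fun l : Fin (i.val + 1) => x l) (H i) = e → eval (co H) Q = 0) := by
  classical
  by_cases hj : j ≤ i.val
  swap
  · exact ⟨1, one_ne_zero, fun h => absurd h hj⟩
  let top : Idx n d → Prop := fun p => ∃ h : j < p.1.val + 1, p.2.1 = Finsupp.single ⟨j, h⟩ d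
  let tp : (l : ℕ) → l < n → j ≤ l → Idx n d := fun l hl hjl =>
    ⟨⟨l, hl⟩, ⟨Finsupp.single (⟨j, Nat.lt_succ_of_le hjl⟩ : Fin (l + 1)) d, by simp⟩⟩
  let p0 : Idx n d := tp i.val i.isLt hj
  let xx : ℕ → MvPolynomial (Idx n d) K := fun k =>
    if h : j < k ∧ k - 1 < n then X (tp (k - 1) h.2 (by omega)) else if k = j then C ω else 0
  let R : Idx n d → MvPolynomial (Idx n d) K := fun p =>
    ∑ m ∈ Finset.univ.erase p.2, X ⟨p.1, m⟩ * ∏ k : Fin (p.1.val + 1), xx k ^ m.1 k
  let Φ : Idx n d → MvPolynomial (Idx n d) K := fun p =>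
    if top p ∧ p.1.val < i.val then C ω⁻¹ * (X p - X p ^ d - R p)
    else if p = p0 then C ω⁻¹ * (C e - R p) else X p
  obtain ⟨Q, hQ0, hQ⟩ := dep Φ p0
  refine ⟨Q, hQ0, fun _ hω H hH x hx0 hxj hωd hfix he => ?_⟩
  let t : Idx n d → K := fun p =>
    if top p ∧ p.1.val < i.val then x (p.1.val + 1) else if p = p0 then 0 else co H p
  have htop0 : top p0 := ⟨by show j < i.val + 1; omega, rfl⟩
  have ht0 : t p0 = 0 := by
    have h1 : ¬ (top p0 ∧ p0.1.val < i.val) := by
      rintro ⟨-, h⟩
      exact lt_irrefl _ h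
    simp only [t, if_neg h1, if_true]
  have hxx : ∀ k ≤ i.val, eval t (xx k) = x k := by
    intro k hk
    by_cases h : j < k ∧ k - 1 < n
    · simp only [xx, dif_pos h, eval_X]
      have h1 : top (tp (k - 1) h.2 (by omega)) ∧ (tp (k - 1) h.2 (by omega)).1.val < i.val := by
        refine ⟨⟨?_, rfl⟩, ?_⟩
        · show j < k - 1 + 1
          omega
        · show k - 1 < i.val
          omega
      simp only [t, if_pos h1]
      show x (k - 1 + 1) = x k
      congr 1
      omega
    · simp only [xx, dif_neg h]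
      by_cases hkj : k = j
      · rw [if_pos hkj, eval_C, hkj, hxj]
      · rw [if_neg hkj, map_zero, hx0 k]
        have := i.isLt
        omega
  have hR : ∀ p, top p → p.1.val ≤ i.val → eval t (R p) =
      ∑ m ∈ Finset.univ.erase p.2, co H ⟨p.1, m⟩ * ∏ k : Fin (p.1.val + 1), x k ^ m.1 k := by
    intro p hp hpi
    simp only [R, map_sum, map_mul, map_prod, map_pow, eval_X]
    refine Finset.sum_congr rfl fun m hm => ?_
    have hmp : m ≠ p.2 := (Finset.mem_erase.mp hm).1
    have hnt : ¬ top ⟨p.1, m⟩ := by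
      rintro ⟨h1, h2⟩
      obtain ⟨h3, h4⟩ := hp
      exact hmp (Subtype.ext (h2.trans h4.symm))
    congr 1
    · have h1 : ¬ (top ⟨p.1, m⟩ ∧ (⟨p.1, m⟩ : Idx n d).1.val < i.val) := fun h => hnt h.1
      have h2 : (⟨p.1, m⟩ : Idx n d) ≠ p0 := by
        intro h
        rw [h] at hnt
        exact hnt htop0
      simp only [t, if_neg h1, if_neg h2]
    · refine Finset.prod_congr rfl fun k _ => ?_
      rw [hxx k (by have := k.isLt; omega)]
  have hsplit : ∀ p, top p → eval (fun l : Fin (p.1.val + 1) => x l) (H p.1) =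
      co H p * ω ^ d +
      ∑ m ∈ Finset.univ.erase p.2, co H ⟨p.1, m⟩ * ∏ k : Fin (p.1.val + 1), x k ^ m.1 k := by
    intro p hp
    rw [eval_hom_sum (hH p.1), ← Finset.add_sum_erase _ _ (Finset.mem_univ p.2)]
    congr 1
    show co H p * _ = _
    congr 1
    obtain ⟨h1, h2⟩ := hp
    rw [h2, Finset.prod_eq_single ⟨j, h1⟩]
    · simp [hxj]
    · intro b _ hb
      rw [Finsupp.single_eq_of_ne hb, pow_zero]
    · intro h
      exact absurd (Finset.mem_univ _) h
  have hmain : (fun p => eval t (Φ p)) = co H := by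
    funext p
    by_cases h1 : top p ∧ p.1.val < i.val
    · have h2 : t p = x (p.1.val + 1) := by simp only [t, if_pos h1]
      simp only [Φ, if_pos h1, map_mul, map_sub, map_pow, eval_C, eval_X, h2]
      rw [hR p h1.1 h1.2.le]
      have h3 := hfix p.1.val h1.2
      have h4 := hsplit p h1.1
      have h5 : eval (fun l : Fin (p.1.val + 1) => x l) (H ⟨p.1.val, by omega⟩) =
          eval (fun l : Fin (p.1.val + 1) => x l) (H p.1) := rfl
      rw [h5, h4, hωd] at h3
      have h6 : x (p.1.val + 1) - x (p.1.val + 1) ^ d -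
          ∑ m ∈ Finset.univ.erase p.2, co H ⟨p.1, m⟩ * ∏ k : Fin (p.1.val + 1), x k ^ m.1 k =
          co H p * ω := by
        linear_combination -h3
      rw [h6]
      field_simp
    · by_cases h2 : p = p0
      · simp only [Φ, if_neg h1, if_pos h2, map_mul, map_sub, eval_C]
        have h3 : top p := by rw [h2]; exact htop0
        have hpi : p.1 = i := by rw [h2]
        rw [hR p h3 (by rw [hpi])]
        have h4 := hsplit p h3
        have h5 : eval (fun l : Fin (p.1.val + 1) => x l) (H p.1) = e := by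
          rw [← he, hpi]
        rw [h5, hωd] at h4
        have h6 : e - ∑ m ∈ Finset.univ.erase p.2,
            co H ⟨p.1, m⟩ * ∏ k : Fin (p.1.val + 1), x k ^ m.1 k = co H p * ω := by
          linear_combination h4
        rw [h6]
        field_simp
      · simp only [Φ, if_neg h1, if_neg h2, eval_X, t]
  rw [← hmain]
  exact hQ t ht0

end bad

end Pool.Agent.Helper80.FB
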