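import Mathlib
import Pool.Agent.Helper80.FB.Bad

set_option autoImplicit false

open MvPolynomial

namespace Pool.Agent.Helper80.FB

open Pool.Agent.Helper80.UC

section gen

variable {K : Type} [Field K] {n d : ℕ}

/-- the functions given by the forms of a tower -/
noncomputable def hf (H : (i : Fin n) → MvPolynomial (Fin (i.val + 1)) K) (i : ℕ)
    (x : Fin (i + 1) → K) : K :=
  if hi : i < n then eval x (H ⟨i, hi⟩) else 0

lemma hf_smul {H : (i : Fin n) → MvPolynomial (Fin (i.val + 1)) K}
    (hH : ∀ i, (H i).IsHomogeneous d) (i : ℕ) (a : K) (x : Fin (i + 1) → K) :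
    hf H i (a • x) = a ^ d * hf H i x := by
  unfold hf
  by_cases hi : i < n
  · rw [dif_pos hi, dif_pos hi]
    exact eval_smul_hom (hH ⟨i, hi⟩) a x
  · rw [dif_neg hi, dif_neg hi, mul_zero]

/-- the exceptional hypersurface -/
theorem exc_poly (K : Type) [Field K] (n : ℕ) {d : ℕ} (hd : 2 ≤ d) (E : Set K) (hE : E.Finite) :
    ∃ Q : MvPolynomial (Idx n d) K, Q ≠ 0 ∧
      ∀ H : (i : Fin n) → MvPolynomial (Fin (i.val + 1)) K, (∀ i, (H i).IsHomogeneous d) →
      eval (co H) Q ≠ 0 → ∀ i < n, ∀ x : Fin (i + 1) → K, x ≠ 0 → tw d (hf H) i x = x →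
        hf H i x ∉ E := by
  classical
  choose Q hQ0 hQ using fun (i : Fin n) (j : ℕ) (ω e : K) => bad_poly (n := n) (d := d) i j ω e
  refine ⟨∏ i : Fin n, ∏ j ∈ Finset.range n, ∏ ω ∈ Polynomial.nthRootsFinset (d - 1) (1 : K),
    ∏ e ∈ hE.toFinset, Q i j ω e, ?_, ?_⟩
  · refine Finset.prod_ne_zero_iff.mpr fun i _ => Finset.prod_ne_zero_iff.mpr fun j _ =>
      Finset.prod_ne_zero_iff.mpr fun ω _ => Finset.prod_ne_zero_iff.mpr fun e _ => hQ0 i j ω e
  · intro H hH hne i hi x hx hfix he
    apply hne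
    let y : ℕ → K := fun k => if h : k < i + 1 then x ⟨k, h⟩ else 0
    have hy : ∀ k (h : k < i + 1), y k = x ⟨k, h⟩ := fun k h => dif_pos h
    have hex : ∃ k, y k ≠ 0 := by
      by_contra hcon
      push Not at hcon
      apply hx
      funext k
      rw [← hy k.val k.isLt, hcon]
      rfl
    set j := Nat.find hex with hj
    have hyj : y j ≠ 0 := Nat.find_spec hex
    have hy0 : ∀ k < j, y k = 0 := by
      intro k hk
      by_contra h
      exact Nat.find_min hex hk h
    have hji : j < i + 1 := by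
      by_contra h
      exact hyj (dif_neg h)
    have hfix' : ∀ (k : ℕ) (hk : k < i), y (k + 1) ^ d +
        eval (fun l : Fin (k + 1) => y l) (H ⟨k, by omega⟩) = y (k + 1) := by
      intro k hk
      have h1 := tw_succ (d := d) (hf H) i x k hk
      rw [hfix] at h1
      have h2 : hf H k (fun j : Fin (k + 1) => x ⟨j, by omega⟩) =
          eval (fun l : Fin (k + 1) => y l) (H ⟨k, by omega⟩) := by
        unfold hf
        rw [dif_pos (show k < n by omega)]
        congr 2
        funext l
        exact (hy l.val (by omega)).symm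
      rw [hy (k + 1) (by omega), ← h2]
      exact h1.symm
    have hω : y j ^ d = y j := by
      rcases Nat.eq_zero_or_pos j with h | h
      · have h1 := tw_zero (d := d) (hf H) i x
        rw [hfix] at h1
        rw [h, hy 0 (by omega)]
        exact h1.symm
      · have h1 := hfix' (j - 1) (by omega)
        have h2 : (fun l : Fin (j - 1 + 1) => y l) = 0 := by
          funext l
          exact hy0 l.val (by omega)
        have h3 : eval (0 : Fin (j - 1 + 1) → K) (H ⟨j - 1, by omega⟩) = 0 := by
          have h4 := eval_smul_hom (hH ⟨j - 1, by omega⟩) 0 (0 : Fin (j - 1 + 1) → K)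
          rwa [zero_smul, zero_pow (by omega), zero_mul] at h4
        rw [h2, h3, add_zero] at h1
        have h5 : j - 1 + 1 = j := by omega
        rwa [h5] at h1
    have hW : y j ∈ Polynomial.nthRootsFinset (d - 1) (1 : K) := by
      rw [Polynomial.mem_nthRootsFinset (by omega)]
      have h1 : y j * (y j ^ (d - 1) - 1) = 0 := by
        rw [mul_sub, ← pow_succ', Nat.sub_add_cancel (by omega), hω, mul_one, sub_self]
      rcases mul_eq_zero.mp h1 with h | h
      · exact absurd h hyj
      · exact sub_eq_zero.mp h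
    have hval : eval (fun l : Fin (i + 1) => y l) (H ⟨i, hi⟩) = hf H i x := by
      unfold hf
      rw [dif_pos hi]
      congr 2
      funext l
      exact hy l.val l.isLt
    have hz : eval (co H) (Q ⟨i, hi⟩ j (y j) (hf H i x)) = 0 :=
      hQ ⟨i, hi⟩ j (y j) (hf H i x) (by show j ≤ i; omega) hyj H hH y hy0 rfl hω hfix' hval
    rw [map_prod]
    refine Finset.prod_eq_zero (Finset.mem_univ ⟨i, hi⟩) ?_
    rw [map_prod]
    refine Finset.prod_eq_zero (Finset.mem_range.mpr (show j < n by omega)) ?_
    rw [map_prod]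
    refine Finset.prod_eq_zero hW ?_
    rw [map_prod]
    exact Finset.prod_eq_zero (hE.mem_toFinset.mpr he) hz

/-- a nonzero polynomial does not vanish at all tuples of forms -/
lemma exists_forms [Infinite K] {Q : MvPolynomial (Idx n d) K} (hQ : Q ≠ 0) :
    ∃ H : (i : Fin n) → MvPolynomial (Fin (i.val + 1)) K, (∀ i, (H i).IsHomogeneous d) ∧
      eval (co H) Q ≠ 0 := by
  classical
  obtain ⟨a, ha⟩ : ∃ a : Idx n d → K, eval a Q ≠ 0 := by
    by_contra hcon
    push Not at hcon
    exact hQ (MvPolynomial.funext fun a => by rw [hcon a, map_zero])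
  refine ⟨fun i => ∑ m : {m : Fin (i.val + 1) →₀ ℕ // m.degree = d}, monomial m.1 (a ⟨i, m⟩),
    fun i => ?_, ?_⟩
  · refine IsHomogeneous.sum _ _ _ fun m _ => isHomogeneous_monomial _ m.2
  · have h1 : co (fun i : Fin n => ∑ m : {m : Fin (i.val + 1) →₀ ℕ // m.degree = d},
        monomial m.1 (a ⟨i, m⟩)) = a := by
      funext p
      simp only [co, coeff_sum, coeff_monomial]
      rw [Finset.sum_eq_single p.2]
      · simp
      · intro m _ hm
        rw [if_neg fun h => hm (Subtype.ext h)]
      · intro h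
        exact absurd (Finset.mem_univ _) h
    rw [h1]
    exact ha

end gen

/-- **The generic tower.** -/
theorem gen_tower (K : Type) [Field K] [NumberField K] (n : ℕ) {d : ℕ} (hd : 5 ≤ d) :
    ∃ Q : MvPolynomial (Idx n d) K, Q ≠ 0 ∧ ∃ B : ℕ,
      ∀ H : (i : Fin n) → MvPolynomial (Fin (i.val + 1)) K, (∀ i, (H i).IsHomogeneous d) →
      eval (co H) Q ≠ 0 → Good K (tw d (hf H) n) (Cb d B n) n {1} ∧
        ∀ (M : ℕ) (L : Fin M → MvPolynomial (Fin (n + 1)) K), (∀ j, (L j).IsHomogeneous d) →
          Cnt K (fib (tw d (hf H) n) (fun j x => eval x (L j)) d)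
            ((d ^ M) ^ n * B ^ M * Cb d B n + B ^ M) := by
  obtain ⟨B, E, hE, hB⟩ := UB_struct K hd 1 one_ne_zero
  obtain ⟨Q, hQ0, hQ⟩ := exc_poly K n (show 2 ≤ d by omega) E hE
  have hB1 : ∀ c : K, {y : K | Pre (fun z => z ^ d + c) y}.encard ≤ B := by
    intro c
    have := (hB c).1
    simpa only [one_mul] using this
  refine ⟨Q, hQ0, B, fun H hH hne => ?_⟩
  have hG := tw_good (show 0 < d by omega) (hf_smul hH) hB1 n (by
    intro i hi x hx hfix y hy
    have hnot := hQ H hH hne i hi x hx hfix
    have hstr := (hB (hf H i x)).2 hnot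
    simp only [one_mul] at hstr
    rcases hstr with h | ⟨a, ha, h⟩
    · have h1 : y ∈ ({y : K | Pre (fun z => z ^ d + hf H i x) y} : Set K) := hy
      rw [h] at h1
      exact absurd h1 (Set.notMem_empty y)
    · have h1 : y ∈ ({y : K | Pre (fun z => z ^ d + hf H i x) y} : Set K) := hy
      rw [h] at h1
      have h2 : y ^ d = a ^ d := h1
      rw [h2, ha]
      exact ha) n le_rfl
  refine ⟨hG, fun M L hL => ?_⟩
  refine fib_cnt (show 0 < d by omega) (tw_smul (hf_smul hH) n)
    (fun x hx => tw_ne (show 0 < d by omega) (hf_smul hH) n x hx)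
    (fun j a x => eval_smul_hom (hL j) a x) (Λ := {1}) (by rintro l rfl; exact one_ne_zero)
    (by
      rintro l rfl c
      have := hB1 c
      simpa only [inv_one, one_mul] using this) (hB1 0) hG

end Pool.Agent.Helper80.FB
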