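import Mathlib
import Pool.Agent.Helper80.FB.Gen

set_option autoImplicit false

open MvPolynomial

namespace Pool.Agent.Helper80.FB

open Pool.Agent.Helper80.UC

/-- the tower as an explicit map -/
noncomputable def towerFun {K : Type} [Field K] {n : ℕ} (d : ℕ)
    (H : (i : Fin n) → MvPolynomial (Fin (i.val + 1)) K) (x : Fin (n + 1) → K) : Fin (n + 1) → K :=
  Fin.cons (α := fun _ => K) (x 0 ^ d) fun i : Fin n =>
    x i.succ ^ d + eval (fun k : Fin (i.val + 1) => x ⟨k.val, by omega⟩) (H i)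

lemma towerFun_eq {K : Type} [Field K] {n : ℕ} (d : ℕ)
    (H : (i : Fin n) → MvPolynomial (Fin (i.val + 1)) K) (x : Fin (n + 1) → K) :
    towerFun d H x = tw d (hf H) n x := by
  funext k
  refine Fin.cases ?_ (fun i => ?_) k
  · rw [tw_zero]
    rfl
  · have h1 := tw_succ (d := d) (hf H) n x i.val i.isLt
    have h2 : (⟨i.val + 1, by omega⟩ : Fin (n + 1)) = i.succ := rfl
    rw [h2] at h1
    rw [h1]
    simp only [towerFun, Fin.cons_succ]
    congr 1
    unfold hf
    rw [dif_pos i.isLt]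

/-- truncations -/
lemma tw_trunc {K : Type} [Field K] {n : ℕ} (d : ℕ)
    (H : (i : Fin n) → MvPolynomial (Fin (i.val + 1)) K) (i : ℕ) (hi : i ≤ n)
    (x : Fin (i + 1) → K) :
    towerFun d (fun k : Fin i => H ⟨k.val, by omega⟩) x = tw d (hf H) i x := by
  rw [towerFun_eq]
  funext k
  refine Fin.cases ?_ (fun k => ?_) k
  · rw [tw_zero, tw_zero]
  · have h2 : (⟨k.val + 1, by omega⟩ : Fin (i + 1)) = k.succ := rfl
    have h1 := tw_succ (d := d) (hf H) i x k.val k.isLt
    have h3 := tw_succ (d := d) (hf (fun k : Fin i => H ⟨k.val, by omega⟩)) i x k.val k.isLt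
    rw [h2] at h1 h3
    rw [h1, h3]
    congr 1
    unfold hf
    rw [dif_pos k.isLt, dif_pos (show k.val < n by omega)]

/-- the explicit condition -/
def Avoids {K : Type} [Field K] {n : ℕ} (E : Set K) (d : ℕ)
    (H : (i : Fin n) → MvPolynomial (Fin (i.val + 1)) K) : Prop :=
  ∀ (i : Fin n) (x : Fin (i.val + 1) → K), x ≠ 0 →
    towerFun d (fun k : Fin i.val => H ⟨k.val, by omega⟩) x = x → eval x (H i) ∉ E

/-- **Towers avoiding the exceptional values.** -/
theorem avoid_tower (K : Type) [Field K] [NumberField K] {d : ℕ} (hd : 5 ≤ d) :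
    ∃ E : Set K, E.Finite ∧ ∃ B : ℕ, ∀ (n : ℕ)
      (H : (i : Fin n) → MvPolynomial (Fin (i.val + 1)) K), (∀ i, (H i).IsHomogeneous d) →
      Avoids E d H → Good K (towerFun d H) (Cb d B n) n {1} ∧
        ∀ (M : ℕ) (L : Fin M → MvPolynomial (Fin (n + 1)) K), (∀ j, (L j).IsHomogeneous d) →
          Cnt K (fib (towerFun d H) (fun j x => eval x (L j)) d)
            ((d ^ M) ^ n * B ^ M * Cb d B n + B ^ M) := by
  obtain ⟨B, E, hE, hB⟩ := UB_struct K hd 1 one_ne_zero
  have hB1 : ∀ c : K, {y : K | Pre (fun z => z ^ d + c) y}.encard ≤ B := by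
    intro c
    have := (hB c).1
    simpa only [one_mul] using this
  refine ⟨E, hE, B, fun n H hH hav => ?_⟩
  have hT : towerFun d H = tw d (hf H) n := funext fun x => towerFun_eq d H x
  have hG := tw_good (show 0 < d by omega) (hf_smul hH) hB1 n (by
    intro i hi x hx hfix y hy
    have hnot : hf H i x ∉ E := by
      have h1 := hav ⟨i, hi⟩ x hx ((tw_trunc d H i hi.le x).trans hfix)
      unfold hf
      rw [dif_pos hi]
      exact h1
    have hstr := (hB (hf H i x)).2 hnot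
    simp only [one_mul] at hstr
    rcases hstr with h | ⟨a, ha, h⟩
    · have h1 : y ∈ ({y : K | Pre (fun z => z ^ d + hf H i x) y} : Set K) := hy
      rw [h] at h1
      exact absurd h1 (Set.notMem_empty y)
    · have h1 : y ∈ ({y : K | Pre (fun z => z ^ d + hf H i x) y} : Set K) := hy
      rw [h] at h1
      have h2 : y ^ d = a ^ d := h1
      rw [h2, ha]
      exact ha) n le_rfl
  rw [hT]
  refine ⟨hG, fun M L hL => ?_⟩
  refine fib_cnt (show 0 < d by omega) (tw_smul (hf_smul hH) n)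
    (fun x hx => tw_ne (show 0 < d by omega) (hf_smul hH) n x hx)
    (fun j a x => eval_smul_hom (hL j) a x) (Λ := {1}) (by rintro l rfl; exact one_ne_zero)
    (by
      rintro l rfl c
      have := hB1 c
      simpa only [inv_one, one_mul] using this) (hB1 0) hG

/-- the exceptional towers lie in a hypersurface -/
theorem avoid_generic (K : Type) [Field K] [Infinite K] (n : ℕ) {d : ℕ} (hd : 2 ≤ d) (E : Set K)
    (hE : E.Finite) : ∃ Q : MvPolynomial (Σ i : Fin n, (Fin (i.val + 1) →₀ ℕ)) K,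
      (∃ H : (i : Fin n) → MvPolynomial (Fin (i.val + 1)) K, (∀ i, (H i).IsHomogeneous d) ∧
        eval (fun p : (Σ i : Fin n, (Fin (i.val + 1) →₀ ℕ)) => (H p.1).coeff p.2) Q ≠ 0) ∧
      ∀ H : (i : Fin n) → MvPolynomial (Fin (i.val + 1)) K, (∀ i, (H i).IsHomogeneous d) →
        eval (fun p : (Σ i : Fin n, (Fin (i.val + 1) →₀ ℕ)) => (H p.1).coeff p.2) Q ≠ 0 →
        Avoids E d H := by
  obtain ⟨Q, hQ0, hQ⟩ := exc_poly K n hd E hE
  have hev : ∀ H : (i : Fin n) → MvPolynomial (Fin (i.val + 1)) K,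
      eval (fun p : (Σ i : Fin n, (Fin (i.val + 1) →₀ ℕ)) => (H p.1).coeff p.2)
        (rename (fun p : Idx n d => (⟨p.1, p.2.1⟩ : Σ i : Fin n, (Fin (i.val + 1) →₀ ℕ))) Q) =
      eval (co H) Q := by
    intro H
    rw [eval_rename]
    rfl
  refine ⟨rename (fun p : Idx n d => (⟨p.1, p.2.1⟩ : Σ i : Fin n, (Fin (i.val + 1) →₀ ℕ))) Q,
    ?_, ?_⟩
  · obtain ⟨H, hH, h⟩ := exists_forms hQ0
    exact ⟨H, hH, by rw [hev]; exact h⟩
  · intro H hH hne i x hx hfix
    rw [hev] at hne
    have h1 := hQ H hH hne i.val i.isLt x hx (by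
      rw [← tw_trunc d H i.val i.isLt.le x]; exact hfix)
    unfold hf at h1
    rwa [dif_pos i.isLt] at h1

end Pool.Agent.Helper80.FB
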